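import Pool.Agent.Helper53.CTR.Goals

/-! Packet CTR-WFD: well formed descriptors. (helper15) -/

set_option autoImplicit false

namespace Pool.Agent.Helper15.CTR

open Pool.Agent.Helper53.CTR
open Pool.Agent.Helper1.TE (cif)

theorem cif_ind {α : Type} {P : α → Prop} {c : ℕ} {a b : α} (h1 : c = 0 → P a)
    (h2 : c ≠ 0 → P b) : P (cif c a b) := by
  unfold cif
  split_ifs with h
  · exact h1 h
  · exact h2 h

theorem wf_idle {q V : ℕ} (hV : 0 < V) : WF q V idle := by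
  constructor <;> simp [idle, De.k, De.e, De.f, De.v, De.i, De.T, hV]

theorem wf_nod {q V v i T : ℕ} (hv : v < V) (hi : i ≤ 2 * q + 2) (hT : T ≤ 2) :
    WF q V (nod v i T) := by
  constructor <;> simp [nod, De.k, De.e, De.f, De.v, De.i, De.T, hv, hi, hT]

theorem wf_lit {q V k e f v i T : ℕ} (hk : k ≤ 7) (he : e ≤ 2 * q + 2) (hf : f ≤ 2 * q + 2)
    (hv : v < V) (hT : T ≤ 2) (hef : k = 4 ∨ k = 6 → e ≠ f) (h1 : k = 1 → T = 0)
    (hi : (k = 5 ∧ i = 2 * q + 3 ∧ T = 1) ∨ (k = 7 ∧ i = 2 * q + 3 ∧ T = 2) ∨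
      (k ≠ 5 ∧ k ≠ 7 ∧ i ≤ 2 * q + 2)) : WF q V (k, e, f, v, i, T) :=
  ⟨hk, he, hf, hv, hT, hef, h1, hi⟩

theorem wf_phV {q V v i T d : ℕ} (hv : v < V) (hi : i ≤ 2 * q + 2) (hT : T ≤ 2) :
    WF q (2 * V) (phV v i T d) := by
  unfold phV
  refine cif_ind (fun _ => ?_) (fun _ => cif_ind (fun _ => ?_) (fun _ =>
    cif_ind (fun _ => ?_) (fun _ => ?_)))
  · apply wf_lit <;> omega
  · apply wf_nod <;> omega
  · apply wf_lit <;> omega
  · apply wf_idle; omega

theorem wf_phB {q V p v i T d : ℕ} (hp : p ≤ 1) (hv : v < V) (hi : i ≤ 2 * q + 2)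
    (hT : T ≤ 2) : WF q (2 * V) (phB q p v i T d) := by
  unfold phB
  refine cif_ind (fun _ => ?_) (fun _ => cif_ind (fun _ => ?_) (fun _ =>
    cif_ind (fun _ => ?_) (fun _ => cif_ind (fun _ => ?_) (fun _ =>
    cif_ind (fun _ => ?_) (fun _ => ?_)))))
  · apply wf_lit <;> omega
  · apply wf_nod <;> omega
  · apply wf_lit <;> omega
  · apply wf_nod <;> omega
  · apply wf_lit <;> omega
  · apply wf_idle; omega

theorem wf_phK {q V e v i T d : ℕ} (he : e + 2 ≤ 2 * q + 2) (hv : v < V)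
    (hi : i ≤ 2 * q + 2) (hT : T ≤ 2) : WF q (2 * V) (phK e v i T d) := by
  unfold phK
  refine cif_ind (fun _ => ?_) (fun _ => cif_ind (fun _ => ?_) (fun _ =>
    cif_ind (fun _ => ?_) (fun _ => cif_ind (fun _ => ?_) (fun _ =>
    cif_ind (fun _ => ?_) (fun _ => cif_ind (fun _ => ?_) (fun _ =>
    cif_ind (fun _ => ?_) (fun _ => cif_ind (fun _ => ?_) (fun _ => ?_))))))))
  · apply wf_lit <;> omega
  · apply wf_nod <;> omega
  · apply wf_lit <;> omega
  · apply wf_lit <;> omega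
  · apply wf_nod <;> omega
  · apply wf_lit <;> omega
  · apply wf_lit <;> omega
  · apply wf_nod <;> omega
  · apply wf_lit <;> omega

theorem wf_mono {q V V' : ℕ} {x : De} (h : WF q V x) (hV : V ≤ V') : WF q V' x :=
  ⟨h.hk, h.he, h.hf, h.hv.trans_le hV, h.hT, h.hef, h.h1, h.hi⟩

theorem wf_sub (q V : ℕ) (x : De) (n d : ℕ) (h : WF q V x) : WF q (2 * V) (sub q x n d) := by
  have hV : 0 < V := by
    have := h.hv
    omega
  unfold sub
  refine cif_ind (fun hk => ?_) (fun _ => cif_ind (fun _ => wf_mono h (by omega))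
    (fun _ => wf_idle (by omega)))
  have hi : x.i ≤ 2 * q + 2 := by
    rcases h.hi with h1 | h1 | h1 <;> omega
  refine cif_ind (fun _ => wf_phV h.hv hi h.hT) (fun _ => cif_ind (fun _ =>
    wf_phB (by omega) h.hv hi h.hT) (fun _ => wf_phK ?_ h.hv hi h.hT))
  omega

theorem gWFD : GoalWFD := by
  refine ⟨fun q V x n d h _ => wf_sub q V x n d h, ?_, ?_⟩
  · intro q V x n τ t h
    induction t with
    | zero =>
      intro _
      rw [pow_zero, one_mul]
      exact h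
    | succ t ih =>
      intro ht
      rw [pow_succ, mul_comm (2 ^ t) 2, mul_assoc]
      exact wf_sub q _ _ _ _ (ih (by omega))
  · intro h q
    unfold root
    apply wf_nod <;> omega

end Pool.Agent.Helper15.CTR
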